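import Pool.Agent.H15.G.R_seed8.TH469.SX.Slab

/-! The second flattening of the exact block: `M + 2 p` points of multiplicity `m` (`p q = 2`). -/

namespace Pool.Agent.TH469.SX

open Finset Pool.Agent.TH176.Nag Pool.Agent.TH603.Sur Pool.Agent.TH603.Cut

/-- the flattened block: the column `t ≥ 1` has `q t` points, cut by the line `t + K k ≤ A` -/
def Fl (q : ℕ) (K A : ℝ) : Set (ℤ × ℤ) :=
  {x | 1 ≤ x.1 ∧ 0 ≤ x.2 ∧ x.2 < (q : ℤ) * x.1 ∧ (x.1 : ℝ) + K * x.2 ≤ A}

theorem key_id {p q M : ℕ} {K : ℝ} (hpq : p * q = 2) (hK : q * (K * (K - M)) = M) :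
    (q : ℝ) * (K + p) ^ 2 = (M + 2 * p) * (q * (K + p) - 1) := by
  have h : (p : ℝ) * q = 2 := by exact_mod_cast hpq
  linear_combination hK - (M + p) * h

theorem sum_const' {ι : Type} [Fintype ι] {n : ℕ} (hn : Fintype.card ι = n) (m k : ℕ) :
    ∑ _i : ι, (m - k) = n * (m - k) := by
  rw [Finset.sum_const, Finset.card_univ, hn, smul_eq_mul]

/-- the length of a row -/
theorem row_card {p q M m k : ℕ} {K A : ℝ} (hpq : p * q = 2) (hK0 : 0 < K)
    (hK : q * (K * (K - M)) = M) (hA : q * A < q * m * (K + p) + 1) {B : Finset ℤ}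
    (hmem : ∀ c ∈ B, (1 ≤ c ∧ (c : ℝ) ≤ A - (K + p) * k) ∨
      (c ≤ 0 ∧ (-c : ℝ) * (q * (K + p) - 1) ≤ A - (K + p) * k - (K + p))) :
    B.card ≤ (M + 2 * p) * (m - k) := by
  have hp : 1 ≤ p := Nat.pos_of_ne_zero (by rintro rfl; simp at hpq)
  have hq : 1 ≤ q := Nat.pos_of_ne_zero (by rintro rfl; simp at hpq)
  have hpR : (1 : ℝ) ≤ p := by exact_mod_cast hp
  have hqR : (1 : ℝ) ≤ q := by exact_mod_cast hq
  have hid := key_id hpq hK
  obtain ⟨D, hD⟩ : ∃ D : ℝ, D = q * (K + p) - 1 := ⟨_, rfl⟩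
  have hD0 : 0 < D := by rw [hD]; nlinarith
  rw [← hD] at hid hmem
  rcases B.eq_empty_or_nonempty with he | hne
  · rw [he]; simp
  obtain ⟨Y, hY⟩ : ∃ Y : ℤ, Y = ⌊A - (K + p) * k⌋ := ⟨_, rfl⟩
  obtain ⟨U, hU⟩ : ∃ U : ℤ, U = ⌊(A - (K + p) * k - (K + p)) / D⌋ := ⟨_, rfl⟩
  have hY1 : 1 ≤ A - (K + p) * k := by
    obtain ⟨c, hc⟩ := hne
    rcases hmem c hc with ⟨h1, h2⟩ | ⟨h1, h2⟩
    · have : (1 : ℝ) ≤ c := by exact_mod_cast h1
      linarith
    · have h1R : (c : ℝ) ≤ 0 := by exact_mod_cast h1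
      have : 0 ≤ (-c : ℝ) * D := mul_nonneg (by linarith) hD0.le
      linarith
  have hYR : (0 : ℤ) ≤ Y := by rw [hY]; exact Int.floor_nonneg.2 (by linarith)
  have hUR : (-1 : ℤ) ≤ U := by
    rw [hU]
    apply Int.le_floor.2
    rw [le_div_iff₀ hD0, hD]
    push_cast
    nlinarith
  have hYU : B ⊆ Finset.Icc (-U) Y := by
    intro c hc
    rw [Finset.mem_Icc]
    rcases hmem c hc with ⟨h1, h2⟩ | ⟨h1, h2⟩
    · refine ⟨by omega, ?_⟩
      rw [hY]; exact Int.le_floor.2 h2
    · refine ⟨?_, by omega⟩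
      have : -c ≤ U := by
        rw [hU]
        apply Int.le_floor.2
        rw [le_div_iff₀ hD0]
        push_cast
        exact h2
      omega
  have hcB : (B.card : ℤ) ≤ Y + U + 1 := by
    have h1 := card_le_card hYU
    rw [Int.card_Icc] at h1
    omega
  have hsum : ((Y + U + 1 : ℤ) : ℝ) < (M + 2 * p) * ((m : ℝ) - k) + 1 := by
    have h1 := Int.floor_le (A - (K + p) * k)
    have h2 := Int.floor_le ((A - (K + p) * k - (K + p)) / D)
    rw [← hY] at h1
    rw [← hU] at h2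
    rw [le_div_iff₀ hD0] at h2
    push_cast
    have h3 : ((Y : ℝ) + U + 1) * D < ((M + 2 * p) * ((m : ℝ) - k) + 1) * D := by
      have e1 : ((M + 2 * p) * ((m : ℝ) - k) + 1) * D =
          (q * (K + p) ^ 2) * ((m : ℝ) - k) + D := by rw [hid]; ring
      rw [e1]
      have h4 : (Y : ℝ) * D ≤ (A - (K + p) * k) * D := mul_le_mul_of_nonneg_right h1 hD0.le
      have h5 : (q * A) * (K + p) < (q * m * (K + p) + 1) * (K + p) :=
        mul_lt_mul_of_pos_right hA (by linarith)
      have h6 : ((Y : ℝ) + U + 1) * D ≤ (A - (K + p) * k) * D + (A - (K + p) * k - (K + p)) + D := by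
        linarith
      refine lt_of_le_of_lt h6 ?_
      have e2 : (A - (K + p) * k) * D + (A - (K + p) * k - (K + p)) + D =
          (q * A) * (K + p) - (K + p) - q * (K + p) ^ 2 * k + D := by rw [hD]; ring
      rw [e2]
      linarith
    exact lt_of_mul_lt_mul_right h3 hD0.le
  have hsumZ : Y + U + 1 ≤ (M + 2 * p : ℤ) * ((m : ℤ) - k) := by
    have : ((Y + U + 1 : ℤ) : ℝ) < (((M + 2 * p : ℤ) * ((m : ℤ) - k) + 1 : ℤ) : ℝ) := by
      push_cast at hsum ⊢
      exact hsum
    have := Int.cast_lt.1 this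
    omega
  have hpos : 0 < B.card := card_pos.2 hne
  have hkm : k < m := by
    by_contra hcon
    have h1 : ((m : ℤ) - k) ≤ 0 := by omega
    have h2 : (M + 2 * p : ℤ) * ((m : ℤ) - k) ≤ 0 :=
      mul_nonpos_of_nonneg_of_nonpos (by positivity) h1
    omega
  have hfin : (B.card : ℤ) ≤ ((M + 2 * p) * (m - k) : ℕ) := by
    push_cast [Nat.cast_sub hkm.le]
    omega
  exact_mod_cast hfin

/-- the columns of the block that reach the row `k` -/
theorem mem_row {p q : ℕ} {K A : ℝ} (hpq : p * q = 2) (hK0 : 0 < K) {k : ℕ} {c s T : ℤ}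
    (hT : (k : ℤ) ≤ T) (h1 : ((c + p * s, s) : ℤ × ℤ) ∈ Fl q K A)
    (h2 : ((c + p * (s + T), s + T) : ℤ × ℤ) ∈ Fl q K A) :
    (1 ≤ c ∧ (c : ℝ) ≤ A - (K + p) * k) ∨
      (c ≤ 0 ∧ (-c : ℝ) * (q * (K + p) - 1) ≤ A - (K + p) * k - (K + p)) := by
  have hp : 1 ≤ p := Nat.pos_of_ne_zero (by rintro rfl; simp at hpq)
  have hq : 1 ≤ q := Nat.pos_of_ne_zero (by rintro rfl; simp at hpq)
  have hpR : (1 : ℝ) ≤ p := by exact_mod_cast hp
  have hqR : (1 : ℝ) ≤ q := by exact_mod_cast hq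
  have hpqZ : (p : ℤ) * q = 2 := by exact_mod_cast hpq
  obtain ⟨a1, a2, a3, -⟩ := h1
  obtain ⟨-, -, -, a4⟩ := h2
  simp only at a1 a2 a3 a4
  have hTR : (k : ℝ) ≤ T := by exact_mod_cast hT
  push_cast at a4
  have hKp : 0 < K + p := by linarith
  have hsR : (0 : ℝ) ≤ s := by exact_mod_cast a2
  rcases lt_or_ge 0 c with h | h
  · left
    refine ⟨h, ?_⟩
    have h3 : (K + p) * k ≤ (K + p) * (s + T) := mul_le_mul_of_nonneg_left (by linarith) hKp.le
    linarith
  · right
    refine ⟨h, ?_⟩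
    have h9 : -((q : ℤ) * c) + 1 ≤ s := by
      have e : (q : ℤ) * (c + p * s) = q * c + 2 * s := by linear_combination s * hpqZ
      rw [e] at a3
      omega
    have h9R : -((q : ℝ) * c) + 1 ≤ s := by exact_mod_cast h9
    have h3 : (K + p) * (-((q : ℝ) * c) + 1 + k) ≤ (K + p) * (s + T) :=
      mul_le_mul_of_nonneg_left (by linarith) hKp.le
    linarith

variable {ι : Type} [Fintype ι]

/-- emptiness of the block -/
theorem Emp_blk {p q M m : ℕ} {K A : ℝ} (hpq : p * q = 2) (hK0 : 0 < K)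
    (hK : q * (K * (K - M)) = M) (hcard : Fintype.card ι = M + 2 * p)
    (hA : q * A < q * m * (K + p) + 1) : Emp (fun _ : ι => m) (Fl q K A) := by
  refine Emp_slabs 1 (-(p : ℤ)) 1 0 (by ring) fun k B hB => ?_
  rw [sum_const' hcard]
  refine row_card hpq hK0 hK hA fun c hc => ?_
  obtain ⟨s, T, hT, h1, h2⟩ := hB c hc
  simp only [one_mul, zero_mul, neg_mul, sub_neg_eq_add, zero_add] at h1 h2
  exact mem_row hpq hK0 hT h1 h2

/-- emptiness of the block with the apex, below the critical degree -/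
theorem Emp_apex {p q M m : ℕ} {K A : ℝ} (hpq : p * q = 2) (hK0 : 0 < K)
    (hK : q * (K * (K - M)) = M) (hcard : Fintype.card ι = M + 2 * p) (hA0 : 0 ≤ A)
    (hA : A < m * (K + p)) : Emp (fun _ : ι => m) (Fl q K A ∪ {((0, 0) : ℤ × ℤ)}) := by
  have hp : 1 ≤ p := Nat.pos_of_ne_zero (by rintro rfl; simp at hpq)
  have hq : 1 ≤ q := Nat.pos_of_ne_zero (by rintro rfl; simp at hpq)
  have hpR : (1 : ℝ) ≤ p := by exact_mod_cast hp
  have hqR : (1 : ℝ) ≤ q := by exact_mod_cast hq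
  have hKp : 0 < K + p := by linarith
  have hD0 : 0 < q * (K + p) - 1 := by nlinarith
  have hMK : K ≤ M + 1 := by
    by_contra hcon
    push Not at hcon
    have h1 : K * 1 < K * (K - M) := mul_lt_mul_of_pos_left (by linarith) hK0
    have h2 : K * (K - M) ≤ q * (K * (K - M)) := le_mul_of_one_le_left (by nlinarith) hqR
    linarith
  refine Emp_slabs 1 (-(p : ℤ)) 1 0 (by ring) fun k B hB => ?_
  rw [sum_const' hcard]
  have hmem : ∀ c ∈ B, ((1 ≤ c ∧ (c : ℝ) ≤ A - (K + p) * k) ∨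
      (c ≤ 0 ∧ (-c : ℝ) * (q * (K + p) - 1) ≤ A - (K + p) * k - (K + p))) ∨
      (c = 0 ∧ 0 ≤ A - (K + p) * k) := by
    intro c hc
    obtain ⟨s, T, hT, h1, h2⟩ := hB c hc
    simp only [one_mul, zero_mul, neg_mul, sub_neg_eq_add, zero_add] at h1 h2
    by_cases hc0 : c = 0
    · right
      refine ⟨hc0, ?_⟩
      subst hc0
      have hs : (0 : ℤ) ≤ s := by
        rcases h1 with h1 | h1
        · exact h1.2.1
        · have := (Prod.mk.inj h1).2
          omega
      rcases h2 with h2 | h2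
      · have h3 := h2.2.2.2
        simp only at h3
        push_cast at h3
        have hTR : (k : ℝ) ≤ T := by exact_mod_cast hT
        have hsR : (0 : ℝ) ≤ s := by exact_mod_cast hs
        have h4 : (K + p) * k ≤ (K + p) * (s + T) := mul_le_mul_of_nonneg_left (by linarith) hKp.le
        linarith
      · have h3 := (Prod.mk.inj h2).2
        have h4 : k = 0 := by omega
        subst h4
        simpa using hA0
    · left
      have h1' : ((c + p * s, s) : ℤ × ℤ) ∈ Fl q K A := by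
        rcases h1 with h1 | h1
        · exact h1
        · exfalso
          have h3 := Prod.mk.inj h1
          rw [h3.2] at h3
          simp at h3
          exact hc0 h3
      have h2' : ((c + p * (s + T), s + T) : ℤ × ℤ) ∈ Fl q K A := by
        rcases h2 with h2 | h2
        · exact h2
        · exfalso
          have h3 := Prod.mk.inj h2
          rw [h3.2] at h3
          simp at h3
          exact hc0 h3
      exact mem_row hpq hK0 hT h1' h2'
  rcases lt_or_ge (A - (K + p) * k) (K + p) with hy | hy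
  · rcases B.eq_empty_or_nonempty with he | hne
    · rw [he]; simp
    have hsub : ∀ c ∈ B, 0 ≤ c ∧ (c : ℝ) ≤ A - (K + p) * k := by
      intro c hc
      rcases hmem c hc with (⟨h1, h2⟩ | ⟨h1, h2⟩) | ⟨h1, h2⟩
      · exact ⟨by omega, h2⟩
      · exfalso
        have h1R : (c : ℝ) ≤ 0 := by exact_mod_cast h1
        have : 0 ≤ (-c : ℝ) * (q * (K + p) - 1) := mul_nonneg (by linarith) hD0.le
        linarith
      · rw [h1]
        exact ⟨le_refl _, by simpa using h2⟩
    have hy0 : 0 ≤ A - (K + p) * k := by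
      obtain ⟨c, hc⟩ := hne
      obtain ⟨h1, h2⟩ := hsub c hc
      have : (0 : ℝ) ≤ c := by exact_mod_cast h1
      linarith
    have hkm : k < m := by
      have h1 : (K + p) * k < (K + p) * m := by linarith
      have h2 := lt_of_mul_lt_mul_left h1 hKp.le
      exact_mod_cast h2
    have hB2 : B ⊆ Finset.Icc 0 ⌊A - (K + p) * k⌋ := by
      intro c hc
      rw [Finset.mem_Icc]
      exact ⟨(hsub c hc).1, Int.le_floor.2 (hsub c hc).2⟩
    have h3 := card_le_card hB2
    rw [Int.card_Icc] at h3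
    have h4 : ⌊A - (K + p) * k⌋ < ((M + 2 * p : ℕ) : ℤ) := by
      apply Int.floor_lt.2
      push_cast
      linarith
    have h5 : (M + 2 * p) * 1 ≤ (M + 2 * p) * (m - k) := Nat.mul_le_mul_left _ (by omega)
    omega
  · refine row_card (A := A) hpq hK0 hK ?_ fun c hc => ?_
    · have : (q : ℝ) * A < q * (m * (K + p)) := mul_lt_mul_of_pos_left hA (by linarith)
      linarith
    · rcases hmem c hc with h | ⟨h1, h2⟩
      · exact h
      · right
        rw [h1]
        refine ⟨le_refl _, ?_⟩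
        simp
        linarith

/-- independence on the block, when all rows are long enough -/
theorem Sur_rows' {p q M m : ℕ} {K A : ℝ} (hpq : p * q = 2) (hK0 : 0 < K)
    (hcard : Fintype.card ι = M + 2 * p)
    (hrow : ∀ k : ℕ, k < m → (M + 2 * p : ℤ) * ((m : ℤ) - k) ≤
      ⌊A - (K + p) * k⌋ + ⌊(A - (K + p) * k - (K + p)) / (q * (K + p) - 1)⌋ + 1) :
    Sur (fun _ : ι => m) (Fl q K A) := by
  have hp : 1 ≤ p := Nat.pos_of_ne_zero (by rintro rfl; simp at hpq)
  have hq : 1 ≤ q := Nat.pos_of_ne_zero (by rintro rfl; simp at hpq)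
  have hpR : (1 : ℝ) ≤ p := by exact_mod_cast hp
  have hqR : (1 : ℝ) ≤ q := by exact_mod_cast hq
  have hpqZ : (p : ℤ) * q = 2 := by exact_mod_cast hpq
  have hpqR : (p : ℝ) * q = 2 := by exact_mod_cast hpq
  have hKp : 0 < K + p := by linarith
  obtain ⟨D, hD⟩ : ∃ D : ℝ, D = q * (K + p) - 1 := ⟨_, rfl⟩
  have hD0 : 0 < D := by rw [hD]; nlinarith
  rw [← hD] at hrow
  refine Sur_slabs' 1 (-(p : ℤ)) 1 0 (by ring) fun k hk => ?_
  have hkm : k < m := by obtain ⟨_, h⟩ := hk; exact h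
  rw [sum_const' hcard]
  have hrow' := hrow k hkm
  obtain ⟨Y, hY⟩ : ∃ Y : ℤ, Y = ⌊A - (K + p) * k⌋ := ⟨_, rfl⟩
  obtain ⟨U, hU⟩ : ∃ U : ℤ, U = ⌊(A - (K + p) * k - (K + p)) / D⌋ := ⟨_, rfl⟩
  rw [← hY, ← hU] at hrow'
  refine ⟨Finset.Icc (-U) Y, ?_, ?_⟩
  · rw [Int.card_Icc]
    have h6 : (((M + 2 * p) * (m - k) : ℕ) : ℤ) ≤ Y + 1 - -U := by
      push_cast [Nat.cast_sub hkm.le]
      omega
    omega
  · intro c hc
    rw [Finset.mem_Icc] at hc
    obtain ⟨hc1, hc2⟩ := hc
    have hcY : (c : ℝ) ≤ A - (K + p) * k := by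
      rw [hY] at hc2
      exact Int.le_floor.1 hc2
    simp only [one_mul, zero_mul, neg_mul, sub_neg_eq_add, zero_add]
    rcases lt_or_ge 0 c with h | h
    · refine ⟨0, fun s hs0 hsk => ?_⟩
      have hsR : (s : ℝ) ≤ k := by
        have : s ≤ (k : ℤ) := by omega
        exact_mod_cast this
      have hps : 0 ≤ (p : ℤ) * s := mul_nonneg (by positivity) hs0
      have hqc : 1 ≤ (q : ℤ) * c := by
        have : (1 : ℤ) * 1 ≤ q * c := mul_le_mul (by exact_mod_cast hq) (by omega) (by norm_num) (by positivity)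
        omega
      refine ⟨?_, hs0, ?_, ?_⟩
      · simp only; omega
      · simp only
        have e : (q : ℤ) * (c + p * s) = q * c + 2 * s := by linear_combination s * hpqZ
        rw [e]
        omega
      · simp only
        push_cast
        have h3 : (K + p) * s ≤ (K + p) * k := mul_le_mul_of_nonneg_left hsR hKp.le
        linarith
    · have hcU : (-c : ℝ) * D ≤ A - (K + p) * k - (K + p) := by
        have h1 : -c ≤ U := by omega
        rw [hU] at h1
        have h2 := Int.le_floor.1 h1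
        rw [le_div_iff₀ hD0] at h2
        push_cast at h2
        exact h2
      have hqc : (q : ℤ) * c ≤ 0 := mul_nonpos_of_nonneg_of_nonpos (by positivity) h
      refine ⟨1 - q * c, fun s hs0 hsk => ?_⟩
      have hsR : (s : ℝ) ≤ 1 - q * c + k := by exact_mod_cast hsk
      refine ⟨?_, ?_, ?_, ?_⟩
      · simp only
        have h1 : (p : ℤ) * (1 - q * c) ≤ p * s := mul_le_mul_of_nonneg_left hs0 (by positivity)
        have h2 : (p : ℤ) * (1 - q * c) = p - 2 * c := by linear_combination -c * hpqZ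
        have h3 : (1 : ℤ) ≤ p := by exact_mod_cast hp
        omega
      · simp only; omega
      · simp only
        have e : (q : ℤ) * (c + p * s) = q * c + 2 * s := by linear_combination s * hpqZ
        rw [e]
        omega
      · simp only
        push_cast
        rw [hD] at hcU
        have h3 : (K + p) * s ≤ (K + p) * (1 - q * c + k) := mul_le_mul_of_nonneg_left hsR hKp.le
        linarith

/-- independence on the block -/
theorem Sur_blk {p q M m : ℕ} {K A : ℝ} (hpq : p * q = 2) (hK0 : 0 < K)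
    (hK : q * (K * (K - M)) = M) (hcard : Fintype.card ι = M + 2 * p)
    (hA : q * m * (K + p) + 1 ≤ q * A) : Sur (fun _ : ι => m) (Fl q K A) := by
  have hp : 1 ≤ p := Nat.pos_of_ne_zero (by rintro rfl; simp at hpq)
  have hq : 1 ≤ q := Nat.pos_of_ne_zero (by rintro rfl; simp at hpq)
  have hpR : (1 : ℝ) ≤ p := by exact_mod_cast hp
  have hqR : (1 : ℝ) ≤ q := by exact_mod_cast hq
  have hid := key_id hpq hK
  refine Sur_rows' hpq hK0 hcard fun k hkm => ?_
  obtain ⟨D, hD⟩ : ∃ D : ℝ, D = q * (K + p) - 1 := ⟨_, rfl⟩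
  have hD0 : 0 < D := by rw [hD]; nlinarith
  rw [← hD] at hid ⊢
  obtain ⟨Y, hY⟩ : ∃ Y : ℤ, Y = ⌊A - (K + p) * k⌋ := ⟨_, rfl⟩
  obtain ⟨U, hU⟩ : ∃ U : ℤ, U = ⌊(A - (K + p) * k - (K + p)) / D⌋ := ⟨_, rfl⟩
  have hsum : (M + 2 * p) * ((m : ℝ) - k) - 1 < ((Y + U + 1 : ℤ) : ℝ) := by
    have h1 := Int.lt_floor_add_one (A - (K + p) * k)
    have h2 := Int.lt_floor_add_one ((A - (K + p) * k - (K + p)) / D)
    rw [← hY] at h1
    rw [← hU] at h2
    rw [div_lt_iff₀ hD0] at h2
    push_cast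
    have h3 : ((M + 2 * p) * ((m : ℝ) - k) - 1) * D < ((Y : ℝ) + U + 1) * D := by
      have e1 : ((M + 2 * p) * ((m : ℝ) - k) - 1) * D =
          (q * (K + p) ^ 2) * ((m : ℝ) - k) - D := by rw [hid]; ring
      rw [e1]
      have h4 : (A - (K + p) * k) * D < ((Y : ℝ) + 1) * D := mul_lt_mul_of_pos_right h1 hD0
      have h5 : (q * m * (K + p) + 1) * (K + p) ≤ (q * A) * (K + p) :=
        mul_le_mul_of_nonneg_right hA (by linarith)
      have e2 : (A - (K + p) * k) * D + (A - (K + p) * k - (K + p)) - D =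
          (q * A) * (K + p) - (K + p) - q * (K + p) ^ 2 * k - D := by rw [hD]; ring
      linarith
    exact lt_of_mul_lt_mul_right h3 hD0.le
  rw [← hY, ← hU]
  have : (((M + 2 * p : ℤ) * ((m : ℤ) - k) - 1 : ℤ) : ℝ) < ((Y + U + 1 : ℤ) : ℝ) := by
    push_cast at hsum ⊢
    exact hsum
  have := Int.cast_lt.1 this
  omega

end Pool.Agent.TH469.SX
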