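import Pool.Agent.H15.G.R_seed8.TH603.Sur.Rows
import Pool.Agent.H15.G.R_seed8.TH698.NagT3

/-! Cutting a finite set of exponents by a line of real slope: emptiness and independence. -/

namespace Pool.Agent.TH469.SX

open Finset Pool.Agent.TH176.Nag Pool.Agent.TH603.Sur
open Filter Topology

theorem Reg_finite {α β μ ν : ℝ} (h : 0 < μ + ν) : (Reg α β μ ν).Finite := by
  -- bounded height
  have hH : ∀ m ∈ Reg α β μ ν, (m.2 : ℝ) ≤ (β - α) / (μ + ν) := by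
    rintro ⟨a, b⟩ ⟨h1, h2, h3⟩
    simp only at h1 h2 h3 ⊢
    rw [le_div_iff₀ h]
    linarith
  set H : ℤ := ⌊(β - α) / (μ + ν)⌋ with hHdef
  set A : ℝ := |α| + |μ| * |(β - α) / (μ + ν)| with hA
  set B : ℝ := |β| + |ν| * |(β - α) / (μ + ν)| with hB
  apply Set.Finite.subset (Set.finite_Icc ((⌊-A⌋, 0) : ℤ × ℤ) ((⌈B⌉, H) : ℤ × ℤ))
  intro m hm
  have h4 := hH m hm
  obtain ⟨h1, h2, h3⟩ := hm
  have h0 : (0 : ℝ) ≤ m.2 := by exact_mod_cast h1
  have habs : |(m.2 : ℝ)| ≤ |(β - α) / (μ + ν)| := by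
    rw [abs_of_nonneg h0]
    exact h4.trans (le_abs_self _)
  have e1 : -A ≤ m.1 := by
    have k1 : -(|μ| * |(β - α) / (μ + ν)|) ≤ μ * m.2 := by
      have k2 : |μ * m.2| ≤ |μ| * |(β - α) / (μ + ν)| := by
        rw [abs_mul]; exact mul_le_mul_of_nonneg_left habs (abs_nonneg _)
      have := neg_abs_le (μ * (m.2 : ℝ))
      linarith
    have k3 := neg_abs_le α
    rw [hA]
    linarith
  have e2 : (m.1 : ℝ) ≤ B := by
    have k1 : -(|ν| * |(β - α) / (μ + ν)|) ≤ ν * m.2 := by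
      have k2 : |ν * m.2| ≤ |ν| * |(β - α) / (μ + ν)| := by
        rw [abs_mul]; exact mul_le_mul_of_nonneg_left habs (abs_nonneg _)
      have := neg_abs_le (ν * (m.2 : ℝ))
      linarith
    have k3 := le_abs_self β
    rw [hB]
    linarith
  rw [Set.mem_Icc, Prod.mk_le_mk, Prod.mk_le_mk]
  refine ⟨⟨?_, h1⟩, ?_, ?_⟩
  · have := (Int.floor_le (-A)).trans e1
    exact_mod_cast this
  · have := e2.trans (Int.le_ceil B)
    exact_mod_cast this
  · exact Int.le_floor.2 h4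

/-- an integral direction separating two finite sets that are separated by a real line -/
theorem exists_dir {S T : Set (ℤ × ℤ)} (hS : S.Finite) (hT : T.Finite) (ρ : ℝ)
    (h : ∀ m ∈ S, ∀ m' ∈ T, (m.1 : ℝ) - ρ * m.2 < m'.1 - ρ * m'.2) :
    ∃ a b : ℤ, ∀ m ∈ S, ∀ m' ∈ T, a * m.1 + b * m.2 < a * m'.1 + b * m'.2 := by
  have hev : ∀ᶠ q in 𝓝 ρ, ∀ p ∈ (hS.toFinset ×ˢ hT.toFinset),
      (p.1.1 : ℝ) - q * p.1.2 < p.2.1 - q * p.2.2 := by
    rw [Filter.eventually_all_finset]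
    intro p hp
    rw [Finset.mem_product, Set.Finite.mem_toFinset, Set.Finite.mem_toFinset] at hp
    have h1 := h _ hp.1 _ hp.2
    have h2 : Filter.Tendsto (fun q : ℝ => (p.2.1 - q * p.2.2 : ℝ) - (p.1.1 - q * p.1.2)) (𝓝 ρ)
        (𝓝 ((p.2.1 - ρ * p.2.2 : ℝ) - (p.1.1 - ρ * p.1.2))) := by
      apply Continuous.tendsto
      fun_prop
    filter_upwards [h2.eventually (Ioi_mem_nhds (a := 0) (by linarith))] with q hq
    have hq' : (0 : ℝ) < (p.2.1 - q * p.2.2 : ℝ) - (p.1.1 - q * p.1.2) := hq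
    linarith
  obtain ⟨ε, hε, hball⟩ := Metric.eventually_nhds_iff.1 hev
  obtain ⟨q, hq1, hq2⟩ := exists_rat_btwn (show ρ < ρ + ε by linarith)
  have h3 := hball (y := (q : ℝ)) (by rw [Real.dist_eq, abs_of_pos (by linarith)]; linarith)
  refine ⟨q.den, -q.num, fun m hm m' hm' => ?_⟩
  have h4 := h3 (m, m') (by
    rw [Finset.mem_product, Set.Finite.mem_toFinset, Set.Finite.mem_toFinset]
    exact ⟨hm, hm'⟩)
  simp only at h4
  have hden : (0 : ℝ) < q.den := by exact_mod_cast q.den_pos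
  have hq : (q : ℝ) * q.den = q.num := by exact_mod_cast Rat.mul_den_eq_num q
  have h5 : ((q.den : ℤ) * m.1 + -q.num * m.2 : ℝ) < (q.den : ℤ) * m'.1 + -q.num * m'.2 := by
    have h6 := mul_lt_mul_of_pos_left h4 hden
    have e1 : (q.den : ℝ) * (m.1 - q * m.2) = (q.den : ℤ) * m.1 + -q.num * m.2 := by
      rw [← hq]; push_cast; ring
    have e2 : (q.den : ℝ) * (m'.1 - q * m'.2) = (q.den : ℤ) * m'.1 + -q.num * m'.2 := by
      rw [← hq]; push_cast; ring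
    rw [e1, e2] at h6
    exact h6
  exact_mod_cast h5


/-- emptiness on both sides of a line -/
theorem cut_E {ι κ : Type} [Finite ι] [Finite κ] {w : ι → ℕ} {v : κ → ℕ} {S T : Set (ℤ × ℤ)}
    (hS : S.Finite) (hT : T.Finite) (ρ : ℝ)
    (h : ∀ m ∈ S, ∀ m' ∈ T, (m.1 : ℝ) - ρ * m.2 < m'.1 - ρ * m'.2)
    (h1 : Emp w S) (h2 : Emp v T) : Emp (Sum.elim w v) (S ∪ T) := by
  classical
  obtain ⟨a, b, hab⟩ := exists_dir hS hT ρ h
  -- a shift into the quadrant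
  obtain ⟨N, hN⟩ : ∃ N : ℤ, ∀ m ∈ S ∪ T, -N ≤ m.1 ∧ -N ≤ m.2 := by
    have hf : (S ∪ T).Finite := hS.union hT
    refine ⟨∑ m ∈ hf.toFinset, ((m.1.natAbs : ℤ) + m.2.natAbs), fun m hm => ?_⟩
    have h3 : ((m.1.natAbs : ℤ) + m.2.natAbs) ≤ ∑ m ∈ hf.toFinset, ((m.1.natAbs : ℤ) + m.2.natAbs) :=
      single_le_sum (f := fun m : ℤ × ℤ => ((m.1.natAbs : ℤ) + m.2.natAbs))
        (fun _ _ => by positivity) (hf.mem_toFinset.2 hm)
    omega
  let φ : ℤ × ℤ → ℤ × ℤ := fun m => (m.1 + N, m.2 + N)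
  have key : Emp (Sum.elim w v) (φ '' S ∪ φ '' T) := by
    refine Pool.Agent.TH698.NagT3.Emp_cut (hS.image φ) (hT.image φ) ?_ ?_ a b ?_ ?_ ?_
    · rintro _ ⟨m, hm, rfl⟩
      have := hN m (Or.inl hm)
      simp only [φ]
      omega
    · rintro _ ⟨m, hm, rfl⟩
      have := hN m (Or.inr hm)
      simp only [φ]
      omega
    · rintro _ ⟨m, hm, rfl⟩ _ ⟨m', hm', rfl⟩
      have := hab m hm m' hm'
      simp only [φ]
      linarith
    · refine h1.comap 1 0 0 1 (-N) (-N) (by norm_num) ?_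
      rintro _ ⟨m, hm, rfl⟩
      simpa [φ] using hm
    · refine h2.comap 1 0 0 1 (-N) (-N) (by norm_num) ?_
      rintro _ ⟨m, hm, rfl⟩
      simpa [φ] using hm
  refine key.comap 1 0 0 1 N N (by norm_num) ?_
  rintro m (hm | hm)
  · left
    exact ⟨m, hm, by simp [φ]⟩
  · right
    exact ⟨m, hm, by simp [φ]⟩

/-- independence on both sides of a line -/
theorem cut_S {ι κ : Type} [Fintype ι] [Fintype κ] {w : ι → ℕ} {v : κ → ℕ} {S T : Set (ℤ × ℤ)}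
    (ρ : ℝ) (h : ∀ m ∈ S, ∀ m' ∈ T, (m.1 : ℝ) - ρ * m.2 < m'.1 - ρ * m'.2)
    (h1 : Sur w S) (h2 : Sur v T) : Sur (Sum.elim w v) (S ∪ T) := by
  classical
  obtain ⟨A, a1, a2, a3⟩ := h1
  obtain ⟨B, b1, b2, b3⟩ := h2
  have hsep : ∀ m ∈ (↑A : Set (ℤ × ℤ)), ∀ m' ∈ (↑B : Set (ℤ × ℤ)),
      (m.1 : ℝ) - ρ * m.2 < m'.1 - ρ * m'.2 := fun m hm m' hm' => h m (a1 hm) m' (b1 hm')
  refine ⟨A ∪ B, ?_, ?_, ?_⟩
  · rw [coe_union]
    exact Set.union_subset_union a1 b1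
  · rw [card_union_of_disjoint, a2, b2]
    · unfold Pool.Agent.TH603.Sur.cond
      rw [Fintype.sum_sum_type]
      simp
    · rw [disjoint_left]
      intro m hm hm'
      exact lt_irrefl _ (hsep m (mem_coe.2 hm) m (mem_coe.2 hm'))
  · rw [coe_union]
    exact cut_E A.finite_toSet B.finite_toSet ρ hsep a3 b3

end Pool.Agent.TH469.SX
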