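import Pool.Agent.H15.G.R_seed8.TH469.SX.Cut
import Pool.Agent.H15.G.R_seed8.TH864.SX.L1

/-! Three sectors: the triangle of slope `τ = K / 3 - 1` is the union of three blocks with the same
flattening. -/

namespace Pool.Agent.TH469.SX

open Finset Pool.Agent.TH176.Nag Pool.Agent.TH603.Sur Pool.Agent.TH603.Cut Pool.Agent.TH641.NW
open Pool.Agent.TH864.SX (Fb Fa Slp)

variable {M q : ℕ} {K : ℝ} {d : ℕ}

/-- the open block -/
def Bo (M : ℕ) (K : ℝ) (d : ℕ) : Set (ℤ × ℤ) :=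
  {p | 0 ≤ p.2 ∧ (K - M) * ((d : ℝ) / 3 - p.2) < p.1 ∧ (p.1 : ℝ) < K * ((d : ℝ) / 3 - p.2)}

theorem bo_of_blk (h : Slp M q K) {t s : ℤ} (ht : 1 ≤ t) (hs : 0 ≤ s)
    (h1 : (K - M) * ((d : ℝ) / 3 - s) ≤ t) (h2 : (t : ℝ) ≤ K * ((d : ℝ) / 3 - s)) :
    ((t, s) : ℤ × ℤ) ∈ Bo M K d := by
  have hK := h.K0
  have htR : (1 : ℝ) ≤ t := by exact_mod_cast ht
  have hx : 0 < (d : ℝ) / 3 - s := by
    by_contra hcon
    push Not at hcon
    have : K * ((d : ℝ) / 3 - s) ≤ 0 := mul_nonpos_of_nonneg_of_nonpos hK.le hcon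
    linarith
  have key : ∀ a : ℝ, Irrational a → a * ((d : ℝ) / 3 - s) ≠ t := by
    intro a ha h3
    apply ha
    refine ⟨(t : ℚ) / ((d : ℚ) / 3 - s), ?_⟩
    push_cast
    rw [← h3]
    exact mul_div_cancel_right₀ _ hx.ne'
  have hKM : Irrational (K - M) := h.irr.sub_natCast M
  exact ⟨hs, lt_of_le_of_ne h1 (key _ hKM), lt_of_le_of_ne h2 (key _ h.irr).symm⟩

theorem Sur_bo {ι : Type} [Fintype ι] {w : ι → ℕ} (h : Slp M q K) (hS : Sur w (Fb q K d)) :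
    Sur w (Bo M K d) := by
  have hM : (0 : ℝ) < M := by exact_mod_cast h.hM
  have hK := h.K0
  have hq : (0 : ℝ) < q := by exact_mod_cast h.hq
  refine Sur_flat (S' := Fb q K d) 1 0 1 0 (by norm_num) ?_ hS
  rintro ⟨t, k⟩ ⟨g1, g2, g3, g4⟩
  simp only at g1 g2 g3 g4
  refine ⟨g2, ?_⟩
  obtain ⟨x, hx⟩ : ∃ x : ℝ, x = (d : ℝ) / 3 - q * K * t / M := ⟨_, rfl⟩
  refine ⟨max 0 ⌈x⌉, fun s hs1 hs2 => ?_⟩
  have e : ((1 * t - 0 * s, 0 * t + 1 * s) : ℤ × ℤ) = (t, s) := by simp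
  simp only at hs2 ⊢
  rw [e]
  refine bo_of_blk h g1 ((le_max_left _ _).trans hs1) ?_ ?_
  · rw [h.low]
    have h5 : (⌈x⌉ : ℝ) ≤ s := by exact_mod_cast (le_max_right _ _).trans hs1
    have h6 := Int.le_ceil x
    linarith
  · rcases le_total ⌈x⌉ 0 with h5 | h5
    · rw [max_eq_left h5] at hs2
      have h6 : (s : ℝ) ≤ k := by
        have : s ≤ k := by omega
        exact_mod_cast this
      have h7 : K * (s : ℝ) ≤ K * k := mul_le_mul_of_nonneg_left h6 hK.le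
      linarith
    · rw [max_eq_right h5] at hs2
      rw [h.up]
      have h6 : (s : ℝ) + 1 ≤ ⌈x⌉ + q * t := by
        have h8 : s + 1 ≤ ⌈x⌉ + q * t := by omega
        exact_mod_cast h8
      have h7 := Int.ceil_lt_add_one x
      linarith

/-- **three sectors, emptiness** -/
theorem Emp_TZ3 {ι : Type} [Finite ι] {w : ι → ℕ} (h : Slp 3 q K) (h6 : K < 6)
    (hE : Emp w (Fa q K d)) : Emp (Sum.elim (Sum.elim w w) w) (TZ d) := by
  have hK3 : (3 : ℝ) < K := by have := h.hMK; push_cast at this; exact this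
  obtain ⟨τ, hτ⟩ : ∃ τ : ℝ, τ = K / 3 - 1 := ⟨_, rfl⟩
  have hτ0 : 0 < τ := by linarith
  have hτ1 : τ < 1 := by linarith
  have hK : K = 3 + 3 * τ := by linarith
  have hB := Pool.Agent.TH864.SX.Emp_blk h hE
  have hsec : ∀ i : ℕ, Emp w {p : ℤ × ℤ | 0 ≤ p.2 ∧
      ((i : ℝ) - 1 - τ) * ((d : ℝ) - 3 * p.2) ≤ p.1 ∧ (p.1 : ℝ) ≤ ((i : ℝ) - τ) * ((d : ℝ) - 3 * p.2)} := by
    intro i
    refine hB.comap (-1) (-(3 * (i : ℤ))) 0 1 (i * d) 0 (by norm_num) ?_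
    rintro ⟨x, y⟩ ⟨g1, g2, g3⟩
    simp only at g1 g2 g3
    refine ⟨by simp only; omega, ?_, ?_⟩
    · simp only
      rw [hK]
      push_cast
      linarith
    · simp only
      rw [hK]
      push_cast
      linarith
  refine keyE _ _ d τ hτ0 hτ1 ?_
  have hfin := Reg_finite (α := -((d : ℝ) * (1 + τ))) (β := d * (2 - τ))
    (μ := 3 * (1 + τ)) (ν := 3 * (2 - τ)) (by linarith)
  set R := Reg (-((d : ℝ) * (1 + τ))) (d * (2 - τ)) (3 * (1 + τ)) (3 * (2 - τ)) with hR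
  have hpos : ∀ p ∈ R, (0 : ℝ) ≤ (d : ℝ) - 3 * p.2 := by
    rintro ⟨x, y⟩ ⟨g1, g2, g3⟩
    simp only at g1 g2 g3 ⊢
    nlinarith
  have hcov : R ⊆ ({p | p ∈ R ∧ (p.1 : ℝ) ≤ -τ * ((d : ℝ) - 3 * p.2)} ∪
      {p | p ∈ R ∧ -τ * ((d : ℝ) - 3 * p.2) < p.1 ∧ (p.1 : ℝ) ≤ (1 - τ) * ((d : ℝ) - 3 * p.2)}) ∪
      {p | p ∈ R ∧ (1 - τ) * ((d : ℝ) - 3 * p.2) < p.1} := by
    intro p hp
    rcases le_or_gt (p.1 : ℝ) (-τ * ((d : ℝ) - 3 * p.2)) with h1 | h1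
    · exact Or.inl (Or.inl ⟨hp, h1⟩)
    · rcases le_or_gt (p.1 : ℝ) ((1 - τ) * ((d : ℝ) - 3 * p.2)) with h2 | h2
      · exact Or.inl (Or.inr ⟨hp, h1, h2⟩)
      · exact Or.inr ⟨hp, h2⟩
  refine Emp.mono ?_ hcov
  refine cut_E (ρ := -3 * (1 - τ)) (hfin.subset ?_) (hfin.subset fun p hp => hp.1) ?_
    (cut_E (ρ := 3 * τ) (hfin.subset fun p hp => hp.1) (hfin.subset fun p hp => hp.1) ?_ ?_ ?_) ?_
  · rintro p (hp | hp)
    · exact hp.1
    · exact hp.1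
  · rintro p (⟨hp, h1⟩ | ⟨hp, h1, h2⟩) p' ⟨hp', h3⟩
    · have := hpos p hp
      nlinarith
    · linarith
  · rintro p ⟨hp, h1⟩ p' ⟨hp', h2, h3⟩
    linarith
  · refine (hsec 0).mono ?_
    rintro ⟨x, y⟩ ⟨⟨g1, g2, g3⟩, h1⟩
    simp only at g1 g2 g3 h1
    refine ⟨g1, ?_, ?_⟩
    · simp only; push_cast; linarith
    · simp only; push_cast; linarith
  · refine (hsec 1).mono ?_
    rintro ⟨x, y⟩ ⟨⟨g1, g2, g3⟩, h1, h2⟩
    simp only at g1 g2 g3 h1 h2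
    refine ⟨g1, ?_, ?_⟩
    · simp only; push_cast; linarith
    · simp only; push_cast; linarith
  · refine (hsec 2).mono ?_
    rintro ⟨x, y⟩ ⟨⟨g1, g2, g3⟩, h1⟩
    simp only at g1 g2 g3 h1
    refine ⟨g1, ?_, ?_⟩
    · simp only; push_cast; linarith
    · simp only; push_cast; linarith

/-- **three sectors, independence** -/
theorem Sur_TZ3 {ι : Type} [Fintype ι] {w : ι → ℕ} (h : Slp 3 q K) (h6 : K < 6)
    (hS : Sur w (Fb q K d)) : Sur (Sum.elim (Sum.elim w w) w) (TZ d) := by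
  have hK3 : (3 : ℝ) < K := by have := h.hMK; push_cast at this; exact this
  obtain ⟨τ, hτ⟩ : ∃ τ : ℝ, τ = K / 3 - 1 := ⟨_, rfl⟩
  have hτ0 : 0 < τ := by linarith
  have hτ1 : τ < 1 := by linarith
  have hK : K = 3 + 3 * τ := by linarith
  have hB := Sur_bo h hS
  have hsec : ∀ i : ℕ, Sur w {p : ℤ × ℤ | 0 ≤ p.2 ∧
      ((i : ℝ) - 1 - τ) * ((d : ℝ) - 3 * p.2) < p.1 ∧ (p.1 : ℝ) < ((i : ℝ) - τ) * ((d : ℝ) - 3 * p.2)} := by
    intro i
    refine hB.comap (-1) (-(3 * (i : ℤ))) 0 1 (i * d) 0 (by norm_num) ?_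
    rintro ⟨t, y⟩ ⟨g1, g2, g3⟩
    simp only at g1 g2 g3
    rw [hK] at g2 g3
    push_cast at g2 g3
    refine ⟨(i * d - 3 * i * y - t, y), ⟨g1, ?_, ?_⟩, ?_⟩
    · simp only
      push_cast
      linarith
    · simp only
      push_cast
      linarith
    · ext
      · simp only; ring
      · simp only; ring
  refine keyS _ _ d τ hτ0 hτ1 ?_ ?_
  · have := (h.irr.div_natCast (m := 3) (by norm_num)).sub_natCast 1
    rw [hτ]
    simpa using this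
  have hpos : ∀ p : ℤ × ℤ, ∀ a : ℝ, (a - 1 - τ) * ((d : ℝ) - 3 * p.2) < p.1 →
      (p.1 : ℝ) < (a - τ) * ((d : ℝ) - 3 * p.2) → (0 : ℝ) < (d : ℝ) - 3 * p.2 := by
    intro p a h1 h2
    linarith
  have key := cut_S (ρ := -3 * (1 - τ)) ?_ (cut_S (ρ := 3 * τ) ?_ (hsec 0) (hsec 1)) (hsec 2)
  · refine key.mono ?_
    rintro ⟨x, y⟩ ((⟨g1, g2, g3⟩ | ⟨g1, g2, g3⟩) | ⟨g1, g2, g3⟩)
    · have h0 := hpos _ _ g2 g3
      simp only at g1 g2 g3 h0
      push_cast at g2 g3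
      refine ⟨g1, ?_, ?_⟩
      · simp only; linarith
      · simp only; linarith
    · have h0 := hpos _ _ g2 g3
      simp only at g1 g2 g3 h0
      push_cast at g2 g3
      refine ⟨g1, ?_, ?_⟩
      · simp only; linarith
      · simp only; linarith
    · have h0 := hpos _ _ g2 g3
      simp only at g1 g2 g3 h0
      push_cast at g2 g3
      refine ⟨g1, ?_, ?_⟩
      · simp only; linarith
      · simp only; linarith
  · rintro p (⟨g1, g2, g3⟩ | ⟨g1, g2, g3⟩) p' ⟨g1', g2', g3'⟩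
    · have h0 := hpos _ _ g2 g3
      push_cast at g3 g2'
      linarith
    · push_cast at g3 g2'
      linarith
  · rintro p ⟨g1, g2, g3⟩ p' ⟨g1', g2', g3'⟩
    push_cast at g3 g2'
    linarith

end Pool.Agent.TH469.SX
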