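import Pool.Agent.H15.G.R_seed8.TH603.Sur.Rows
import Pool.Agent.H15.G.R_seed8.TH603.Cut.FlatE

/-! A set of exponents is flattened along `(x, y)` and all points are put on a line: the criteria
for emptiness and for independence in terms of the lengths of the rows. -/

namespace Pool.Agent.TH469.SX

open Finset Pool.Agent.TH176.Nag Pool.Agent.TH603.Sur Pool.Agent.TH603.Cut

variable {ι : Type} [Fintype ι] {w : ι → ℕ}

/-- emptiness by rows -/
theorem Emp_of_rows {S : Set (ℤ × ℤ)} (hpos : ∀ p ∈ S, 0 ≤ p.2)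
    (hS : ∀ (k : ℕ) (B : Finset ℤ), (∀ c ∈ B, ((c, (k : ℤ)) : ℤ × ℤ) ∈ S) → B.card ≤ ∑ i, (w i - k)) :
    Emp w S := by
  have h1 : Emp w {m : ℤ × ℤ | (m.2, m.1) ∈ Rws w 0} := by
    refine (Emp_rows w 0).comap 0 1 1 0 0 0 (by norm_num) ?_
    rintro ⟨a, b⟩ hab
    simpa using hab
  have h2 : Emp w {m : ℤ × ℤ | (m.2, m.1) ∈ S} := by
    refine Emp_flat0 ?_ h1
    intro a B hB k hk
    have hne : B.Nonempty := card_pos.1 (by omega)
    obtain ⟨b0, hb0⟩ := hne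
    have ha : 0 ≤ a := hpos _ (hB b0 hb0)
    obtain ⟨a', rfl⟩ := Int.eq_ofNat_of_zero_le ha
    have h3 := hS a' B hB
    refine ⟨by simp, by simp, ?_⟩
    simp only [Int.toNat_natCast, zero_add]
    have : k < ∑ i, (w i - a') := by omega
    exact_mod_cast this
  refine h2.comap 0 1 1 0 0 0 (by norm_num) ?_
  rintro ⟨a, b⟩ hab
  simpa using hab

/-- emptiness: flatten along `(x, y)` and put all points on a line -/
theorem Emp_slabs {S : Set (ℤ × ℤ)} (x y u v : ℤ) (hdet : x * u + y * v = 1)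
    (hS : ∀ (k : ℕ) (B : Finset ℤ), (∀ c ∈ B, ∃ s T : ℤ, (k : ℤ) ≤ T ∧
      ((u * c - y * s, v * c + x * s) : ℤ × ℤ) ∈ S ∧
      ((u * c - y * (s + T), v * c + x * (s + T)) : ℤ × ℤ) ∈ S) → B.card ≤ ∑ i, (w i - k)) :
    Emp w S := by
  refine Emp_flat (S' := {q : ℤ × ℤ | 0 ≤ q.2 ∧ ∃ s T : ℤ, q.2 ≤ T ∧
    ((u * q.1 - y * s, v * q.1 + x * s) : ℤ × ℤ) ∈ S ∧
      ((u * q.1 - y * (s + T), v * q.1 + x * (s + T)) : ℤ × ℤ) ∈ S}) x y u v hdet ?_ ?_
  · intro p T k hp hp' hk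
    have e1 : u * (x * p.1 + y * p.2) - y * (u * p.2 - v * p.1) = p.1 := by
      linear_combination p.1 * hdet
    have e2 : v * (x * p.1 + y * p.2) + x * (u * p.2 - v * p.1) = p.2 := by
      linear_combination p.2 * hdet
    refine ⟨by simp, u * p.2 - v * p.1, T, hk, ?_, ?_⟩
    · rw [e1, e2]
      exact hp
    · have e3 : u * (x * p.1 + y * p.2) - y * ((u * p.2 - v * p.1) + T) = p.1 - y * T := by
        linear_combination p.1 * hdet
      have e4 : v * (x * p.1 + y * p.2) + x * ((u * p.2 - v * p.1) + T) = p.2 + x * T := by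
        linear_combination p.2 * hdet
      rw [e3, e4]
      exact hp'
  · refine Emp_of_rows (fun p hp => hp.1) fun k B hB => hS k B fun c hc => ?_
    obtain ⟨-, s, T, h1, h2, h3⟩ := hB c hc
    exact ⟨s, T, h1, h2, h3⟩

/-- independence: flatten along `(x, y)` and put all points on a line -/
theorem Sur_slabs' {S : Set (ℤ × ℤ)} (x y u v : ℤ) (hdet : x * u + y * v = 1)
    (hS : ∀ k : ℕ, (∃ i, k < w i) → ∃ B : Finset ℤ, ∑ i, (w i - k) ≤ B.card ∧ ∀ c ∈ B,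
      ∃ s0 : ℤ, ∀ s : ℤ, s0 ≤ s → s ≤ s0 + k → ((u * c - y * s, v * c + x * s) : ℤ × ℤ) ∈ S) :
    Sur w S := by
  refine Sur_slabs (S' := {p : ℤ × ℤ | 0 ≤ p.1 ∧ 0 ≤ p.2 ∧ p.1 < ((∑ i, (w i - p.2.toNat) : ℕ) : ℤ)})
    x y u v hdet ?_ ?_
  · rintro ⟨j, k⟩ ⟨h1, h2, h3⟩
    simp only at h1 h2 h3
    obtain ⟨k', rfl⟩ := Int.eq_ofNat_of_zero_le h2
    simp only [Int.toNat_natCast] at h3
    have hk : ∃ i, k' < w i := by
      by_contra hcon
      push Not at hcon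
      have : ∑ i, (w i - k') = 0 := sum_eq_zero fun i _ => Nat.sub_eq_zero_of_le (hcon i)
      rw [this] at h3
      simp at h3
      omega
    obtain ⟨B, h4, h5⟩ := hS k' hk
    refine ⟨h1, h2, B, ?_, h5⟩
    simp only
    have : ((∑ i, (w i - k') : ℕ) : ℤ) ≤ (B.card : ℤ) := by exact_mod_cast h4
    omega
  · apply Sur_rows w 0
    intro k j hj
    refine ⟨by simp, by simp, ?_⟩
    simp only [Int.toNat_natCast, zero_add]
    exact_mod_cast hj

end Pool.Agent.TH469.SX
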